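import Mathlib
import Pool.Agent.Helper93.TP.Defs2

/-!
# TP-3: irreducibility of the space of forms under linear substitutions, in generic form
-/

namespace Pool.Agent.Helper93.TP

open MvPolynomial Module

section

variable {σ : Type*} [Fintype σ]

private theorem lf_add' (a b : σ → ℂ) : lf (a + b) = lf a + lf b := by
  simp only [lf, Pi.add_apply, add_smul, Finset.sum_add_distrib]

private theorem lf_smul' (s : ℂ) (a : σ → ℂ) : lf (s • a) = s • lf a := by
  simp only [lf, Pi.smul_apply, smul_eq_mul, mul_smul, Finset.smul_sum]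

private theorem lf_sum' {ι : Type*} (s : Finset ι) (f : ι → σ → ℂ) :
    lf (∑ i ∈ s, f i) = ∑ i ∈ s, lf (f i) := by
  classical
  induction s using Finset.induction_on with
  | empty => simp [lf]
  | insert a s ha ih => rw [Finset.sum_insert ha, lf_add', ih, Finset.sum_insert ha]

private theorem lf_homog (b : σ → ℂ) : (lf b).IsHomogeneous 1 := by
  unfold lf
  refine IsHomogeneous.sum _ _ _ fun i _ => ?_
  rw [smul_eq_C_mul]
  simpa using (isHomogeneous_C σ (b i)).mul (isHomogeneous_X ℂ i)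

/-- substitution by a linear map -/
private noncomputable def rho [DecidableEq σ] (g : (σ → ℂ) →ₗ[ℂ] (σ → ℂ)) :
    MvPolynomial σ ℂ →ₐ[ℂ] MvPolynomial σ ℂ :=
  aeval fun i => lf (g (Pi.single i 1))

private theorem rho_lf [DecidableEq σ] (g : (σ → ℂ) →ₗ[ℂ] (σ → ℂ)) (b : σ → ℂ) : rho g (lf b) = lf (g b) := by
  have h : g b = ∑ i, b i • g (Pi.single i 1) := by
    conv_lhs => rw [← Finset.univ_sum_single b, map_sum]
    refine Finset.sum_congr rfl fun i _ => ?_
    rw [← map_smul]
    congr 1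
    ext j
    by_cases hj : j = i
    · subst hj; simp
    · simp [hj]
  rw [h, lf_sum']
  conv_lhs => unfold lf
  rw [map_sum]
  refine Finset.sum_congr rfl fun i _ => ?_
  rw [map_smul, lf_smul']
  congr 1
  simp only [rho, aeval_X]

private theorem rho_homog [DecidableEq σ] (g : (σ → ℂ) →ₗ[ℂ] (σ → ℂ)) {d : ℕ} {q : MvPolynomial σ ℂ}
    (hq : q ∈ homogeneousSubmodule σ ℂ d) : rho g q ∈ homogeneousSubmodule σ ℂ d := by
  rw [mem_homogeneousSubmodule] at hq ⊢
  unfold rho
  have := hq.aeval (fun i => lf (g (Pi.single i 1))) (fun i => lf_homog _)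
  rwa [one_mul] at this

private theorem rho_Sig [DecidableEq σ] (g : (σ → ℂ) →ₗ[ℂ] (σ → ℂ)) {d : ℕ} (A : Finset ℕ) (ω : ℕ → σ → ℂ)
    {q : MvPolynomial σ ℂ} (hq : q ∈ Sig (mu σ d) ⊥ A ω) :
    rho g q ∈ Sig (mu σ d) ⊥ A (fun i => g (ω i)) := by
  have hle : (Sig (mu σ d) ⊥ A ω).map (rho g).toLinearMap ≤
      Sig (mu σ d) ⊥ A (fun i => g (ω i)) := by
    unfold Sig
    rw [Submodule.map_sup, Submodule.map_bot, bot_sup_eq, bot_sup_eq, Submodule.map_iSup]
    refine iSup_mono fun i => ?_
    rw [Submodule.map_iSup]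
    refine iSup_mono fun hi => ?_
    rintro _ ⟨_, ⟨p, rfl⟩, rfl⟩
    refine ⟨⟨rho g p.1, rho_homog g p.2⟩, ?_⟩
    simp only [mu, LinearMap.comp_apply, Submodule.subtype_apply, LinearMap.mulLeft_apply,
      AlgHom.toLinearMap_apply, map_mul, map_pow, rho_lf]
  exact hle ⟨q, hq, rfl⟩

/-- the submodule of forms which are generically in `Sig` -/
private def Zs (σ : Type*) [Fintype σ] (d t : ℕ) : Submodule ℂ (MvPolynomial σ ℂ) where
  carrier := {q | Gen (fun ω : ℕ → σ → ℂ => q ∈ Sig (mu σ d) ⊥ (Finset.range t) ω)}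
  add_mem' := by
    intro x y hx hy
    refine (Gen.and hx hy).mono ?_
    rintro ω ⟨h1, h2⟩
    exact Submodule.add_mem _ h1 h2
  zero_mem' := Gen.of_forall (fun ω => Submodule.zero_mem _)
  smul_mem' := by
    intro c x hx
    refine Gen.mono hx ?_
    intro ω h
    exact Submodule.smul_mem _ _ h

private theorem rho_Zs [DecidableEq σ] (g : (σ → ℂ) ≃ₗ[ℂ] (σ → ℂ)) {d t : ℕ} {q : MvPolynomial σ ℂ}
    (hq : q ∈ Zs σ d t) : rho g.toLinearMap q ∈ Zs σ d t := by
  change Gen (fun ω : ℕ → σ → ℂ => q ∈ Sig (mu σ d) ⊥ (Finset.range t) ω) at hq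
  change Gen (fun ω : ℕ → σ → ℂ => rho g.toLinearMap q ∈ Sig (mu σ d) ⊥ (Finset.range t) ω)
  rw [← Gen.comp_equiv_iff (LinearEquiv.piCongrRight fun _ : ℕ => g)]
  refine hq.mono fun ω hω => ?_
  exact rho_Sig g.toLinearMap (Finset.range t) ω hω

private theorem polyMap_aeval (u v : σ → MvPolynomial σ ℂ) (F : MvPolynomial σ ℂ) :
    PolyMap (fun s : ℂ => aeval (fun i => s • u i + v i) F) := by
  induction F using MvPolynomial.induction_on with
  | C a =>
    simp only [aeval_C]
    exact PolyMap.const _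
  | add p q hp hq =>
    simp only [map_add]
    exact hp.add hq
  | mul_X p i hp =>
    simp only [map_mul, aeval_X]
    refine hp.mul (PolyMap.add (PolyMap.smul ?_ (PolyMap.const _)) (PolyMap.const _))
    exact PolyFun.linear LinearMap.id

private theorem aeval_homog {d : ℕ} {F : MvPolynomial σ ℂ} (hF : F.IsHomogeneous d)
    (lam : σ → ℂ) (p : MvPolynomial σ ℂ) :
    aeval (fun i => lam i • p) F = eval lam F • p ^ d := by
  rw [aeval_def, eval₂_eq', eval_eq', Finset.sum_smul]
  refine Finset.sum_congr rfl fun m hm => ?_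
  have h1 : ∑ i, m i = d := by
    have := hF (mem_support_iff.1 hm)
    rw [← this, Finsupp.weight_apply, Finsupp.sum_fintype _ _ (by simp)]
    simp
  have h2 : ∏ i, (lam i • p) ^ m i = (∏ i, lam i ^ m i) • p ^ d := by
    simp only [smul_pow]
    rw [Finset.prod_smul, Finset.prod_pow_eq_pow_sum, h1]
  rw [h2, algebraMap_eq, ← smul_eq_C_mul, smul_smul]

end

theorem gen_full_of_gen_mem (σ : Type*) [Fintype σ] {d : ℕ} (hd : 2 ≤ d)
    (hsp : Submodule.span ℂ (Set.range fun b : σ → ℂ => lf b ^ d) = homogeneousSubmodule σ ℂ d)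
    (t : ℕ) {F : MvPolynomial σ ℂ} (hF : F ∈ homogeneousSubmodule σ ℂ d) (hF0 : F ≠ 0)
    (h : Gen (fun ω : ℕ → σ → ℂ => F ∈ Sig (mu σ d) ⊥ (Finset.range t) ω)) :
    ∀ G ∈ homogeneousSubmodule σ ℂ d,
      Gen (fun ω : ℕ → σ → ℂ => G ∈ Sig (mu σ d) ⊥ (Finset.range t) ω) := by
  classical
  have hFZ : F ∈ Zs σ d t := h
  obtain ⟨lam, hlam⟩ : ∃ lam : σ → ℂ, eval lam F ≠ 0 := by
    by_contra hcon
    push Not at hcon
    exact hF0 (MvPolynomial.funext fun x => by rw [hcon x, map_zero])
  -- the linear form with coefficients lam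
  let Λ : (σ → ℂ) →ₗ[ℂ] ℂ := ∑ i, lam i • LinearMap.proj i
  have hΛ : ∀ b, Λ b = ∑ i, lam i * b i := fun b => by simp [Λ]
  have hpow : ∀ c : σ → ℂ, lf c ^ d ∈ Zs σ d t := by
    intro c
    let g : ℂ → (σ → ℂ) →ₗ[ℂ] (σ → ℂ) := fun s => s • LinearMap.id + Λ.smulRight c
    have hg : ∀ s b, g s b = s • b + Λ b • c := fun s b => rfl
    have hrho : ∀ s, rho (g s) F = aeval (fun i => s • X i + lam i • lf c) F := by
      intro s
      unfold rho
      congr 2
      funext i
      rw [hg]
      have e1 : Λ (Pi.single i 1) = lam i := by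
        rw [hΛ]
        simp [Pi.single_apply]
      have e2 : lf (Pi.single i (1 : ℂ)) = (X i : MvPolynomial σ ℂ) := by
        unfold lf
        rw [Finset.sum_eq_single i]
        · simp
        · intro j _ hj
          simp [hj]
        · intro hi
          exact absurd (Finset.mem_univ i) hi
      have e3 : lf (s • Pi.single i (1 : ℂ) + Λ (Pi.single i 1) • c) =
          s • X i + lam i • lf c := by
        rw [lf_add', lf_smul', lf_smul', e1, e2]
      rw [← e3]
    have hinj : ∀ s, s ≠ 0 → s ≠ -Λ c → Function.Injective (g s) := by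
      intro s hs0 hs1
      rw [← LinearMap.ker_eq_bot, LinearMap.ker_eq_bot']
      intro b hb
      rw [hg] at hb
      have h1 : Λ b * (s + Λ c) = 0 := by
        have := congrArg Λ hb
        rw [map_add, map_smul, map_smul, map_zero, smul_eq_mul, smul_eq_mul] at this
        linear_combination this
      have h2 : Λ b = 0 := by
        rcases mul_eq_zero.1 h1 with h | h
        · exact h
        · exact absurd (eq_neg_of_add_eq_zero_left h) hs1
      rw [h2, zero_smul, add_zero] at hb
      exact (smul_eq_zero.1 hb).resolve_left hs0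
    have hgen : Gen (fun s : ℂ => aeval (fun i => s • X i + lam i • lf c) F ∈ Zs σ d t) := by
      refine (Gen.compl_finite {0, -Λ c}).mono fun s hs => ?_
      simp only [Finset.mem_insert, Finset.mem_singleton, not_or] at hs
      rw [← hrho]
      let e : (σ → ℂ) ≃ₗ[ℂ] (σ → ℂ) := LinearEquiv.ofInjectiveEndo (g s) (hinj s hs.1 hs.2)
      have he : e.toLinearMap = g s := by
        ext1
        rfl
      have := rho_Zs e hFZ
      rwa [he] at this
    have h0 := (polyMap_aeval (fun i => X i) (fun i => lam i • lf c) F).mem_of_gen (Zs σ d t)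
      hgen 0
    simp only [zero_smul, zero_add] at h0
    rw [aeval_homog ((mem_homogeneousSubmodule _ _).1 hF)] at h0
    exact (Submodule.smul_mem_iff _ hlam).1 h0
  intro G hG
  have hle : Submodule.span ℂ (Set.range fun b : σ → ℂ => lf b ^ d) ≤ Zs σ d t := by
    rw [Submodule.span_le]
    rintro _ ⟨b, rfl⟩
    exact hpow b
  rw [hsp] at hle
  exact hle hG

end Pool.Agent.Helper93.TP
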